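import Pool.Agent.H51.BN.STP

/-!
# Models of grids with branch sets of bounded size
-/

set_option autoImplicit false

namespace Pool.Agent.H51.BN

open Pool.Agent.H8.VR Pool.Agent.H69.VR Pool.Agent.H8.MC Classical

theorem conn_preimage {V V' : Type} {G : SimpleGraph V} {G' : SimpleGraph V'} {X : Set V}
    {X' : Set V'} {h : V' → V} (hi : Set.InjOn h X')
    (hR : ∀ a ∈ X', ∀ b ∈ X', (G'.Adj a b ↔ G.Adj (h a) (h b))) (hX : h '' X' = X)
    (hc : (G.induce X).Connected) : (G'.induce X').Connected := by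
  subst hX
  have iso : G'.induce X' ≃g G.induce (h '' X') :=
    ⟨Equiv.Set.imageOfInjOn h X' hi, fun {a b} => (hR a.1 a.2 b.1 b.2).symm⟩
  exact iso.connected_iff.2 hc

/-- a clean marked model -/
theorem clean {C : GClass} (hS : SubClosed C) {r n : ℕ} {G : SimpleGraph (Fin n)} (hC : C n G)
    (hm : Minor (grid r) G) : ∃ (V : Type) (_ : Finite V) (G' : SimpleGraph V)
      (ce : V → Fin r × Fin r) (mk : V → Set Dr), MM r G' ce mk ∧ InC C G' := by
  obtain ⟨B, hB1, hB2, hB3⟩ := hm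
  -- the chosen edges
  obtain ⟨w, hw⟩ : ∃ w : Fin r × Fin r → Fin r × Fin r → Fin n, ∀ p q, (grid r).Adj p q →
      w p q ∈ B p ∧ G.Adj (w p q) (w q p) := by
    have h1 : ∀ p q, ∃ x y : Fin n, (grid r).Adj p q → x ∈ B p ∧ y ∈ B q ∧ G.Adj x y := by
      intro p q
      by_cases h : (grid r).Adj p q
      · obtain ⟨x, hx, y, hy, hxy⟩ := hB3 p q h
        exact ⟨x, y, fun _ => ⟨hx, hy, hxy⟩⟩
      · obtain ⟨⟨b, _⟩⟩ := (hB1 p).nonempty
        exact ⟨b, b, fun h' => absurd h' h⟩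
    choose f g hfg using h1
    refine ⟨fun p q => if toLex p < toLex q then f p q else g q p, ?_⟩
    intro p q h
    have hne : p ≠ q := h.ne
    rcases lt_or_gt_of_ne (show toLex p ≠ toLex q from fun h' => hne (toLex.injective h')) with
      h1 | h1
    · have h2 := hfg p q h
      simp only [h1, if_true, not_lt_of_gt h1, if_false]
      exact ⟨h2.1, h2.2.2⟩
    · have h2 := hfg q p h.symm
      simp only [h1, if_true, not_lt_of_gt h1, if_false]
      exact ⟨h2.2.1, h2.2.2.symm⟩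
  have hce : ∀ v : {v : Fin n // ∃ p, v ∈ B p}, ∃ p, v.1 ∈ B p := fun v => v.2
  choose ce hce using hce
  have hceq : ∀ (v : {v : Fin n // ∃ p, v ∈ B p}) p, v.1 ∈ B p → ce v = p := by
    intro v p h
    by_contra hne
    exact Set.disjoint_left.1 (hB2 _ _ hne) (hce v) h
  set mk : {v : Fin n // ∃ p, v ∈ B p} → Set Dr := fun v => {d | ∃ q, step d (ce v) q ∧
    v.1 = w (ce v) q} with hmk
  set G' : SimpleGraph {v : Fin n // ∃ p, v ∈ B p} :=
    { Adj := fun u v => (ce u = ce v ∧ G.Adj u.1 v.1) ∨ (ce u ≠ ce v ∧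
        ∃ d, step d (ce u) (ce v) ∧ d ∈ mk u ∧ opp d ∈ mk v)
      symm := ⟨by
        rintro u v (⟨h1, h2⟩ | ⟨h1, d, h2, h3, h4⟩)
        · exact Or.inl ⟨h1.symm, h2.symm⟩
        · exact Or.inr ⟨h1.symm, opp d, step_opp.2 h2, h4, by rwa [opp_opp]⟩⟩
      loopless := ⟨by
        rintro u (⟨h1, h2⟩ | ⟨h1, -⟩)
        · exact G.loopless.irrefl _ h2
        · exact h1 rfl⟩ } with hG'
  have hle : ∀ u v, G'.Adj u v → G.Adj u.1 v.1 := by
    rintro u v (⟨h1, h2⟩ | ⟨h1, d, h2, ⟨q, h3, h4⟩, ⟨q', h5, h6⟩⟩)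
    · exact h2
    · have h7 : q = ce v := step_fun h3 h2
      have h8 : q' = ce u := step_fun h5 (step_opp.2 h2)
      rw [h7] at h4
      rw [h8] at h6
      rw [h4, h6]
      exact (hw _ _ (step_adj.2 ⟨d, h2⟩)).2
  refine ⟨{v : Fin n // ∃ p, v ∈ B p}, inferInstance, G', ce, mk, ⟨?_, ?_, ?_⟩, ?_⟩
  · intro p
    refine conn_preimage (h := Subtype.val) Subtype.val_injective.injOn ?_ ?_ (hB1 p)
    · intro a ha b hb
      show ((ce a = ce b ∧ G.Adj a.1 b.1) ∨ (ce a ≠ ce b ∧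
        ∃ d, step d (ce a) (ce b) ∧ d ∈ mk a ∧ opp d ∈ mk b)) ↔ _
      have hab : ce a = ce b := Eq.trans ha (Eq.symm hb)
      constructor
      · rintro (h | h)
        · exact h.2
        · exact absurd hab h.1
      · exact fun h => Or.inl ⟨hab, h⟩
    · ext v
      constructor
      · rintro ⟨u, hu, rfl⟩
        rw [← show ce u = p from hu]
        exact hce u
      · intro hv
        exact ⟨⟨v, p, hv⟩, hceq _ _ hv, rfl⟩
  · intro u v hne
    show ((ce u = ce v ∧ G.Adj u.1 v.1) ∨ (ce u ≠ ce v ∧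
        ∃ d, step d (ce u) (ce v) ∧ d ∈ mk u ∧ opp d ∈ mk v)) ↔ _
    constructor
    · rintro (h | h)
      · exact absurd h.1 hne
      · exact h.2
    · exact fun h => Or.inr ⟨hne, h⟩
  · intro p q d h
    have h1 := hw p q (step_adj.2 ⟨d, h⟩)
    have h2 : ce ⟨w p q, p, h1.1⟩ = p := hceq _ _ h1.1
    refine ⟨⟨w p q, p, h1.1⟩, h2, q, ?_, ?_⟩
    · rw [h2]
      exact h
    · rw [h2]
  · obtain ⟨m, ⟨e⟩⟩ := Finite.exists_equiv_fin {v : Fin n // ∃ p, v ∈ B p}
    exact ⟨m, e.symm, hS m n _ G hC ⟨fun a => (e.symm a).1,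
      Subtype.val_injective.comp e.symm.injective, fun a b h => hle _ _ h⟩⟩

/-- all cells of bounded size -/
theorem bounded {C : GClass} {χ : MS} (hχ : ∀ (V : Type) [Finite V] [Nonempty V]
    (G : SimpleGraph V) (c : V → Set Dr), (InC C G ↔ χ.dec (tyg χ G Set.univ c))) {L : ℕ}
    (hL : ∀ (A : Type) [Finite A] (D : SimpleGraph A) (c : A → Set Dr), D.Connected → ∃ n, n ≤ L ∧
      ∃ (D' : SimpleGraph (Fin n)) (c' : Fin n → Set Dr), D'.Connected ∧
        Set.range c' = Set.range c ∧ tyg χ D' Set.univ c' = tyg χ D Set.univ c) {r : ℕ}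
    (h0 : ∃ (V : Type) (_ : Finite V) (G : SimpleGraph V)
      (ce : V → Fin r × Fin r) (mk : V → Set Dr), MM r G ce mk ∧ InC C G)
    (F : Finset (Fin r × Fin r)) : ∃ (V : Type) (_ : Finite V) (G : SimpleGraph V)
      (ce : V → Fin r × Fin r) (mk : V → Set Dr), MM r G ce mk ∧ InC C G ∧
        ∀ p ∈ F, {v | ce v = p}.ncard ≤ L := by
  induction F using Finset.induction_on with
  | empty =>
    obtain ⟨V, hV, G, ce, mk, h1, h2⟩ := h0
    exact ⟨V, hV, G, ce, mk, h1, h2, fun p hp => absurd hp (Finset.notMem_empty p)⟩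
  | insert p₀ F hp₀ ih =>
    obtain ⟨V, hV, G, ce, mk, h1, h2, h3⟩ := ih
    obtain ⟨V', hV', G', ce', mk', h4, h5, h6, h7⟩ := step_replace hχ hL h1 h2 p₀
    refine ⟨V', hV', G', ce', mk', h4, h5, ?_⟩
    intro p hp
    by_cases hpp : p = p₀
    · rw [hpp]
      exact h6
    · rw [h7 p hpp]
      exact h3 p ((Finset.mem_insert.1 hp).resolve_left hpp)

/-- BND: models with branch sets of bounded size -/
theorem pf_BND : T_BND := by
  intro C hD hS hM
  obtain ⟨χ, hχ⟩ := definable_iff hD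
  obtain ⟨L, hL⟩ := representatives χ (Set Dr)
  refine ⟨max L 1, lt_of_lt_of_le Nat.one_pos (le_max_right _ _), ?_⟩
  intro r
  obtain ⟨n₀, G₀, hC₀, hm₀⟩ := hM r
  obtain ⟨V, hV, G, ce, mk, h1, ⟨n, e, h2⟩, h3⟩ := bounded (fun V _ _ G c => hχ V G (Set Dr) c) hL
    (clean hS hC₀ hm₀) Finset.univ
  refine ⟨n, G.comap e, fun v => some (ce (e v)), h2, ⟨?_, ?_, ?_⟩, fun v => by simp, ?_⟩
  · intro p
    refine conn_preimage (h := e) e.injective.injOn (fun a _ b _ => Iff.rfl) ?_ (h1.conn p)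
    ext v
    constructor
    · rintro ⟨u, hu, rfl⟩
      exact Option.some.inj hu
    · intro hv
      exact ⟨e.symm v, by simpa using hv, e.apply_symm_apply v⟩
  · intro u v huv
    refine ⟨ce (e u), ce (e v), rfl, rfl, ?_⟩
    by_cases h : ce (e u) = ce (e v)
    · exact Or.inl h
    · obtain ⟨d, h4, -⟩ := (h1.adj (e u) (e v) h).1 huv
      exact Or.inr (step_adj.2 ⟨d, h4⟩)
  · intro p q hpq
    obtain ⟨d, hd⟩ := step_adj.1 hpq
    obtain ⟨u, hu1, hu2⟩ := h1.one p q d hd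
    obtain ⟨v, hv1, hv2⟩ := h1.one q p (opp d) (step_opp.2 hd)
    refine ⟨e.symm u, e.symm v, by simp [hu1], by simp [hv1], ?_⟩
    show G.Adj (e (e.symm u)) (e (e.symm v))
    rw [e.apply_symm_apply, e.apply_symm_apply]
    refine (h1.adj u v (by rw [hu1, hv1]; exact hpq.ne)).2 ⟨d, by rw [hu1, hv1]; exact hd, hu2, hv2⟩
  · intro p
    have h4 := h3 p (Finset.mem_univ p)
    have h5 : {v : Fin n | some (ce (e v)) = some p}.ncard = {v | ce v = p}.ncard := by
      have h6 : {v | ce v = p} = e '' {v : Fin n | some (ce (e v)) = some p} := by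
        ext v
        constructor
        · intro hv
          exact ⟨e.symm v, by simpa using hv, e.apply_symm_apply v⟩
        · rintro ⟨u, hu, rfl⟩
          exact Option.some.inj hu
      rw [h6, Set.ncard_image_of_injective _ e.injective]
    rw [h5]
    exact h4.trans (le_max_left _ _)

end Pool.Agent.H51.BN
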