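import Pool.Agent.H69.VR.MLem

/-!
# Types of isomorphic structures
-/

set_option autoImplicit false

namespace Pool.Agent.H51.BN

open Pool.Agent.H8.VR Pool.Agent.H69.VR Classical

section
variable {A A' Q : Type} {P : ℕ → A → Prop} {R : ℕ → A → A → Prop} {P' : ℕ → A' → Prop}
  {R' : ℕ → A' → A' → Prop}

theorem cl_iso {X : Set A} {c : A → Q} {c' : A' → Q} {h : A → A'}
    (hc : ∀ a ∈ X, c a = c' (h a)) {o : Option A} {o' : Option A'}
    (ho : ∀ a ∈ X, (o = some a ↔ o' = some (h a))) : cl X c o = cl (h '' X) c' o' := by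
  by_cases h1 : ∃ a ∈ X, o = some a
  · obtain ⟨a, ha, rfl⟩ := h1
    rw [(ho a ha).1 rfl]
    have h2 : h a ∈ h '' X := ⟨a, ha, rfl⟩
    show (if a ∈ X then some (c a) else none) = if h a ∈ h '' X then some (c' (h a)) else none
    rw [if_pos ha, if_pos h2, hc a ha]
  · have h2 : cl X c o = none := by
      rcases o with _ | a
      · rfl
      · have ha : a ∉ X := fun ha => h1 ⟨a, ha, rfl⟩
        simp [cl, ha]
    have h3 : cl (h '' X) c' o' = none := by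
      rcases o' with _ | b
      · rfl
      · by_cases hb : b ∈ h '' X
        · obtain ⟨a, ha, rfl⟩ := hb
          exact absurd ⟨a, ha, (ho a ha).2 rfl⟩ h1
        · exact if_neg hb
    rw [h2, h3]

theorem upd_iso {X : Set A} {h : A → A'} {e : ℕ → Option A} {e' : ℕ → Option A'}
    (he : ∀ x, ∀ a ∈ X, (e x = some a ↔ e' x = some (h a))) (y : ℕ) {o : Option A}
    {o' : Option A'} (ho : ∀ a ∈ X, (o = some a ↔ o' = some (h a))) :
    ∀ x, ∀ a ∈ X, (Function.update e y o x = some a ↔ Function.update e' y o' x = some (h a)) := by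
  intro x a ha
  by_cases hx : x = y
  · subst hx
    simpa using ho a ha
  · simp only [Function.update_of_ne hx]
    exact he x a ha

theorem upd_isoV {X : Set A} {h : A → A'} {V : ℕ → Set A} {V' : ℕ → Set A'}
    (hV : ∀ Z, ∀ a ∈ X, (a ∈ V Z ↔ h a ∈ V' Z)) (Y : ℕ) {S : Set A} {S' : Set A'}
    (hS : ∀ a ∈ X, (a ∈ S ↔ h a ∈ S')) :
    ∀ Z, ∀ a ∈ X, (a ∈ Function.update V Y S Z ↔ h a ∈ Function.update V' Y S' Z) := by
  intro Z a ha
  by_cases hZ : Z = Y
  · subst hZ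
    simpa using hS a ha
  · simp only [Function.update_of_ne hZ]
    exact hV Z a ha

/-- the type is invariant under isomorphisms -/
theorem ty_iso {X : Set A} {c : A → Q} {c' : A' → Q} {h : A → A'} (hi : Set.InjOn h X)
    (hP : ∀ i, ∀ a ∈ X, (P i a ↔ P' i (h a)))
    (hR : ∀ i, ∀ a ∈ X, ∀ b ∈ X, (R i a b ↔ R' i (h a) (h b)))
    (hc : ∀ a ∈ X, c a = c' (h a)) : ∀ (φ : MS) (e : ℕ → Option A) (e' : ℕ → Option A')
    (V : ℕ → Set A) (V' : ℕ → Set A'), (∀ x, ∀ a ∈ X, (e x = some a ↔ e' x = some (h a))) →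
      (∀ Z, ∀ a ∈ X, (a ∈ V Z ↔ h a ∈ V' Z)) →
        φ.ty P R X c e V = φ.ty P' R' (h '' X) c' e' V'
  | .un i x, e, e', V, V', he, _ => by
      show (∃ a ∈ X, e x = some a ∧ P i a : Prop) = (∃ a ∈ h '' X, e' x = some a ∧ P' i a : Prop)
      refine propext ⟨?_, ?_⟩
      · rintro ⟨a, ha, h1, h2⟩
        exact ⟨h a, ⟨a, ha, rfl⟩, (he x a ha).1 h1, (hP i a ha).1 h2⟩
      · rintro ⟨_, ⟨a, ha, rfl⟩, h1, h2⟩
        exact ⟨a, ha, (he x a ha).2 h1, (hP i a ha).2 h2⟩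
  | .bi i x y, e, e', V, V', he, _ => by
      show ((∃ a ∈ X, ∃ b ∈ X, e x = some a ∧ e y = some b ∧ R i a b : Prop),
        cl X c (e x), cl X c (e y)) = ((∃ a ∈ h '' X, ∃ b ∈ h '' X, e' x = some a ∧
          e' y = some b ∧ R' i a b : Prop), cl (h '' X) c' (e' x), cl (h '' X) c' (e' y))
      rw [cl_iso hc (he x), cl_iso hc (he y)]
      refine congrArg₂ _ (propext ⟨?_, ?_⟩) rfl
      · rintro ⟨a, ha, b, hb, h1, h2, h3⟩
        exact ⟨h a, ⟨a, ha, rfl⟩, h b, ⟨b, hb, rfl⟩, (he x a ha).1 h1, (he y b hb).1 h2,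
          (hR i a ha b hb).1 h3⟩
      · rintro ⟨_, ⟨a, ha, rfl⟩, _, ⟨b, hb, rfl⟩, h1, h2, h3⟩
        exact ⟨a, ha, b, hb, (he x a ha).2 h1, (he y b hb).2 h2, (hR i a ha b hb).2 h3⟩
  | .eq x y, e, e', V, V', he, _ => by
      show (∃ a ∈ X, e x = some a ∧ e y = some a : Prop) =
        (∃ a ∈ h '' X, e' x = some a ∧ e' y = some a : Prop)
      refine propext ⟨?_, ?_⟩
      · rintro ⟨a, ha, h1, h2⟩
        exact ⟨h a, ⟨a, ha, rfl⟩, (he x a ha).1 h1, (he y a ha).1 h2⟩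
      · rintro ⟨_, ⟨a, ha, rfl⟩, h1, h2⟩
        exact ⟨a, ha, (he x a ha).2 h1, (he y a ha).2 h2⟩
  | .mem x Z, e, e', V, V', he, hV => by
      show (∃ a ∈ X, e x = some a ∧ a ∈ V Z : Prop) =
        (∃ a ∈ h '' X, e' x = some a ∧ a ∈ V' Z : Prop)
      refine propext ⟨?_, ?_⟩
      · rintro ⟨a, ha, h1, h2⟩
        exact ⟨h a, ⟨a, ha, rfl⟩, (he x a ha).1 h1, (hV Z a ha).1 h2⟩
      · rintro ⟨_, ⟨a, ha, rfl⟩, h1, h2⟩
        exact ⟨a, ha, (he x a ha).2 h1, (hV Z a ha).2 h2⟩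
  | .mod Z q r, e, e', V, V', _, hV => by
      show (((X ∩ V Z).ncard : ℕ) : ZMod (q + 1)) = (((h '' X ∩ V' Z).ncard : ℕ) : ZMod (q + 1))
      have h1 : h '' X ∩ V' Z = h '' (X ∩ V Z) := by
        ext b
        constructor
        · rintro ⟨⟨a, ha, rfl⟩, hb⟩
          exact ⟨a, ⟨ha, (hV Z a ha).2 hb⟩, rfl⟩
        · rintro ⟨a, ⟨ha, h2⟩, rfl⟩
          exact ⟨⟨a, ha, rfl⟩, (hV Z a ha).1 h2⟩
      rw [h1, (hi.mono Set.inter_subset_left).ncard_image]
  | .neg φ, e, e', V, V', he, hV => ty_iso hi hP hR hc φ e e' V V' he hV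
  | .and φ ψ, e, e', V, V', he, hV => by
      show (φ.ty P R X c e V, ψ.ty P R X c e V) = (φ.ty P' R' (h '' X) c' e' V',
        ψ.ty P' R' (h '' X) c' e' V')
      rw [ty_iso hi hP hR hc φ e e' V V' he hV, ty_iso hi hP hR hc ψ e e' V V' he hV]
  | .ex x φ, e, e', V, V', he, hV => by
      show ({t | ∃ a ∈ X, t = φ.ty P R X c (Function.update e x (some a)) V},
        φ.ty P R X c (Function.update e x none) V) =
        ({t | ∃ a ∈ h '' X, t = φ.ty P' R' (h '' X) c' (Function.update e' x (some a)) V'},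
          φ.ty P' R' (h '' X) c' (Function.update e' x none) V')
      have key : ∀ a ∈ X, φ.ty P R X c (Function.update e x (some a)) V =
          φ.ty P' R' (h '' X) c' (Function.update e' x (some (h a))) V' := fun a ha =>
        ty_iso hi hP hR hc φ _ _ V V' (upd_iso he x fun b hb => by
          simp only [Option.some.injEq]
          exact ⟨fun h1 => congrArg h h1, fun h1 => hi ha hb h1⟩) hV
      refine congrArg₂ _ ?_ (ty_iso hi hP hR hc φ _ _ V V' (upd_iso he x fun b _ => by simp) hV)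
      ext t
      constructor
      · rintro ⟨a, ha, rfl⟩
        exact ⟨h a, ⟨a, ha, rfl⟩, key a ha⟩
      · rintro ⟨_, ⟨a, ha, rfl⟩, rfl⟩
        exact ⟨a, ha, (key a ha).symm⟩
  | .exS Z φ, e, e', V, V', he, hV => by
      show {t | ∃ S, S ⊆ X ∧ t = φ.ty P R X c e (Function.update V Z S)} =
        {t | ∃ S, S ⊆ h '' X ∧ t = φ.ty P' R' (h '' X) c' e' (Function.update V' Z S)}
      ext t
      constructor
      · rintro ⟨S, hS, rfl⟩
        refine ⟨h '' S, Set.image_mono hS, ty_iso hi hP hR hc φ e e' _ _ he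
          (upd_isoV (S := S) (S' := h '' S) hV Z fun a ha => ⟨fun h1 => ⟨a, h1, rfl⟩, ?_⟩)⟩
        rintro ⟨b, hb, h1⟩
        rwa [← hi (hS hb) ha h1]
      · rintro ⟨S, hS, rfl⟩
        refine ⟨X ∩ h ⁻¹' S, Set.inter_subset_left, (ty_iso hi hP hR hc φ e e' _ _ he
          (upd_isoV (S := X ∩ h ⁻¹' S) (S' := S) hV Z
            fun a ha => ⟨fun h1 => h1.2, fun h1 => ⟨ha, h1⟩⟩)).symm⟩

end

end Pool.Agent.H51.BN
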