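import Pool.Agent.H51.BN.RPL

/-!
# Small connected graphs with a given type; marked models of grids
-/

set_option autoImplicit false

namespace Pool.Agent.H51.BN

open Pool.Agent.H8.VR Pool.Agent.H69.VR Pool.Agent.H8.MC Classical

/-- every type of a connected coloured graph is the type of one with at most `L` vertices and the same
colours -/
theorem representatives (χ : MS) (Q : Type) [Finite Q] : ∃ L, ∀ (A : Type) [Finite A]
    (D : SimpleGraph A) (c : A → Q), D.Connected → ∃ n, n ≤ L ∧ ∃ (D' : SimpleGraph (Fin n))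
      (c' : Fin n → Q), D'.Connected ∧ Set.range c' = Set.range c ∧
        tyg χ D' Set.univ c' = tyg χ D Set.univ c := by
  have := χ.finT Q
  set Pn : (χ.T Q × Set Q) → ℕ → Prop := fun τ n => ∃ (D' : SimpleGraph (Fin n)) (c' : Fin n → Q),
    D'.Connected ∧ Set.range c' = τ.2 ∧ tyg χ D' Set.univ c' = τ.1 with hPn
  have h1 : ∀ τ : χ.T Q × Set Q, ∃ L, (∃ n, Pn τ n) → ∃ n, n ≤ L ∧ Pn τ n := by
    intro τ
    by_cases h : ∃ n, Pn τ n
    · obtain ⟨n, hn⟩ := h
      exact ⟨n, fun _ => ⟨n, le_rfl, hn⟩⟩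
    · exact ⟨0, fun h' => absurd h' h⟩
  choose L hL using h1
  obtain ⟨M, hM⟩ := (Set.finite_range L).bddAbove
  refine ⟨M, ?_⟩
  intro A _ D c hD
  obtain ⟨n, ⟨e⟩⟩ := Finite.exists_equiv_fin A
  have h2 : Pn (tyg χ D Set.univ c, Set.range c) n := by
    refine ⟨D.comap e.symm, c ∘ e.symm, ?_, ?_, ?_⟩
    · exact (SimpleGraph.Iso.comap e.symm D).connected_iff.2 hD
    · exact e.symm.surjective.range_comp c
    · have h3 : tyg χ (D.comap e.symm) Set.univ (c ∘ e.symm) =
          tyg χ D (e.symm '' Set.univ) c :=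
        tyg_iso χ e.symm.injective.injOn (fun a _ b _ => Iff.rfl) (fun a _ => rfl)
      rw [h3, Set.image_univ, e.symm.range_eq_univ]
  obtain ⟨n', h4, D', c', h5, h6, h7⟩ := hL (tyg χ D Set.univ c, Set.range c) ⟨n, h2⟩
  exact ⟨n', h4.trans (hM ⟨_, rfl⟩), D', c', h5, h6, h7⟩

/-- directions: the axis and the sign -/
abbrev Dr : Type := Bool × Bool

/-- the opposite direction -/
def opp (d : Dr) : Dr := (d.1, !d.2)

/-- `q` is the neighbour of `p` in the direction `d` -/
def step {r : ℕ} (d : Dr) (p q : Fin r × Fin r) : Prop :=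
  (if d.1 then p.1 = q.1 else p.2 = q.2) ∧
    (if d.1 then (if d.2 then p.2.val + 1 = q.2.val else q.2.val + 1 = p.2.val)
      else (if d.2 then p.1.val + 1 = q.1.val else q.1.val + 1 = p.1.val))

theorem opp_opp (d : Dr) : opp (opp d) = d := by
  simp [opp]

theorem step_opp {r : ℕ} {d : Dr} {p q : Fin r × Fin r} : step (opp d) q p ↔ step d p q := by
  obtain ⟨a, b⟩ := d
  cases a <;> cases b <;> simp [step, opp, eq_comm]

theorem step_adj {r : ℕ} {p q : Fin r × Fin r} : (grid r).Adj p q ↔ ∃ d, step d p q := by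
  constructor
  · rintro (⟨h, h' | h'⟩ | ⟨h, h' | h'⟩)
    · exact ⟨(true, true), by simp [step, h, h']⟩
    · exact ⟨(true, false), by simp [step, h, h']⟩
    · exact ⟨(false, true), by simp [step, h, h']⟩
    · exact ⟨(false, false), by simp [step, h, h']⟩
  · rintro ⟨⟨a, b⟩, h1, h2⟩
    cases a <;> cases b <;> simp only [Bool.false_eq_true, if_false, if_true] at h1 h2
    · exact Or.inr ⟨h1, Or.inr h2⟩
    · exact Or.inr ⟨h1, Or.inl h2⟩
    · exact Or.inl ⟨h1, Or.inr h2⟩
    · exact Or.inl ⟨h1, Or.inl h2⟩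

theorem step_ne {r : ℕ} {d : Dr} {p q : Fin r × Fin r} (h : step d p q) : p ≠ q :=
  fun h' => (grid r).loopless.irrefl p (by
    have := step_adj.2 ⟨d, h⟩
    rwa [← h'] at this)

/-- the neighbour in a direction is unique -/
theorem step_fun {r : ℕ} {d : Dr} {p q q' : Fin r × Fin r} (h : step d p q) (h' : step d p q') :
    q = q' := by
  obtain ⟨a, b⟩ := d
  obtain ⟨h1, h2⟩ := h
  obtain ⟨h3, h4⟩ := h'
  cases a <;> cases b <;> simp only [Bool.false_eq_true, if_false, if_true] at h1 h2 h3 h4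
  · exact Prod.ext (Fin.ext (by omega)) (h1.symm.trans h3)
  · exact Prod.ext (Fin.ext (by omega)) (h1.symm.trans h3)
  · exact Prod.ext (h1.symm.trans h3) (Fin.ext (by omega))
  · exact Prod.ext (h1.symm.trans h3) (Fin.ext (by omega))

/-- A marked model of the grid in `G`: every vertex belongs to a cell; the cells are connected; the
edges between different cells are given by the marks. -/
structure MM {V : Type} (r : ℕ) (G : SimpleGraph V) (ce : V → Fin r × Fin r) (mk : V → Set Dr) :
    Prop where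
  conn : ∀ p, (G.induce {v | ce v = p}).Connected
  adj : ∀ u v, ce u ≠ ce v → (G.Adj u v ↔ ∃ d, step d (ce u) (ce v) ∧ d ∈ mk u ∧ opp d ∈ mk v)
  one : ∀ p q d, step d p q → ∃ u, ce u = p ∧ d ∈ mk u

end Pool.Agent.H51.BN
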