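import Pool.Agent.H51.BN.ISO
import Pool.Agent.H8.MC.Targets

/-!
# Graphs in a definable class: replacing a part by a part with the same type
-/

set_option autoImplicit false

namespace Pool.Agent.H51.BN

open Pool.Agent.H8.VR Pool.Agent.H69.VR Pool.Agent.H8.MC Classical

/-- `G` is isomorphic to a graph in the class -/
def InC (C : GClass) {V : Type} (G : SimpleGraph V) : Prop :=
  ∃ (n : ℕ) (e : Fin n ≃ V), C n (G.comap e)

/-- the structure of a graph -/
def RG {V : Type} (G : SimpleGraph V) : ℕ → V → V → Prop := fun i a b => i = 0 ∧ G.Adj a b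

/-- the type of a part of a coloured graph -/
noncomputable def tyg {V Q : Type} (φ : MS) (G : SimpleGraph V) (X : Set V) (c : V → Q) : φ.T Q :=
  φ.ty (fun _ _ => False) (RG G) X c (fun _ => none) (fun _ => ∅)

theorem tyg_iso {V V' Q : Type} (φ : MS) {G : SimpleGraph V} {G' : SimpleGraph V'} {X : Set V}
    {c : V → Q} {c' : V' → Q} {h : V → V'} (hi : Set.InjOn h X)
    (hR : ∀ a ∈ X, ∀ b ∈ X, (G.Adj a b ↔ G'.Adj (h a) (h b))) (hc : ∀ a ∈ X, c a = c' (h a)) :
    tyg φ G X c = tyg φ G' (h '' X) c' :=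
  ty_iso (P := fun _ _ => False) (P' := fun _ _ => False) (R := RG G) (R' := RG G') hi
    (fun _ _ _ => Iff.rfl) (fun i a ha b hb => and_congr_right fun _ => hR a ha b hb) hc φ
    (fun _ => none) (fun _ => none) (fun _ => ∅) (fun _ => ∅)
    (fun _ _ _ => ⟨fun h => (nomatch h), fun h => (nomatch h)⟩) (fun _ _ _ => Iff.rfl)

/-- a bound for the symbols of a formula -/
theorem exists_below : ∀ φ : MS, ∃ m, ∀ n, m ≤ n → φ.Below n
  | .un i _ => ⟨i + 1, fun n hn => Nat.lt_of_succ_le hn⟩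
  | .bi i _ _ => ⟨i + 1, fun n hn => Nat.lt_of_succ_le hn⟩
  | .eq _ _ => ⟨0, fun _ _ => trivial⟩
  | .mem _ _ => ⟨0, fun _ _ => trivial⟩
  | .mod _ _ _ => ⟨0, fun _ _ => trivial⟩
  | .neg φ => exists_below φ
  | .and φ ψ => by
      obtain ⟨m, hm⟩ := exists_below φ
      obtain ⟨m', hm'⟩ := exists_below ψ
      exact ⟨max m m', fun n hn => ⟨hm n (le_trans (le_max_left _ _) hn),
        hm' n (le_trans (le_max_right _ _) hn)⟩⟩
  | .ex _ φ => exists_below φ
  | .exS _ φ => exists_below φ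

/-- the truth of a class for all finite nonempty types -/
theorem definable_iff {C : GClass} (hC : Definable C) : ∃ χ : MS, ∀ (V : Type) [Finite V]
    [Nonempty V] (G : SimpleGraph V) (Q : Type) (c : V → Q),
      (InC C G ↔ χ.dec (tyg χ G Set.univ c)) := by
  obtain ⟨χ, -, hχ⟩ := hC
  refine ⟨χ.clo χ.vb, ?_⟩
  intro V _ _ G Q c
  have key : ∀ (n : ℕ) (e : Fin n ≃ V),
      (C n (G.comap e) ↔ (χ.clo χ.vb).dec (tyg (χ.clo χ.vb) G Set.univ c)) := by
    intro n e
    have hn : 0 < n := by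
      have : Nonempty (Fin n) := e.nonempty
      exact Fin.pos_iff_nonempty.2 this
    have : Nonempty (Fin n) := e.nonempty
    have h1 := hχ n (fun _ _ => False) (RG (G.comap e)) (G.comap e) hn (fun a b => by simp [RG])
    rw [← h1, ← dec_iff (c ∘ e) χ]
    have h2 : tyg (χ.clo χ.vb) (G.comap e) Set.univ (c ∘ e) =
        tyg (χ.clo χ.vb) G (e '' Set.univ) c :=
      tyg_iso _ e.injective.injOn (fun a _ b _ => Iff.rfl) (fun a _ => rfl)
    rw [Set.image_univ, e.range_eq_univ] at h2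
    rw [← h2]
    rfl
  constructor
  · rintro ⟨n, e, h⟩
    exact (key n e).1 h
  · intro h
    obtain ⟨n, ⟨e⟩⟩ := Finite.exists_equiv_fin V
    exact ⟨n, e.symm, (key n e.symm).2 h⟩

/-- the part `B` of `G` is replaced by `D` -/
def glue {V A Q : Type} (G : SimpleGraph V) (B : Set V) (c₁ : V → Q) (D : SimpleGraph A)
    (c' : A → Q) (l : Q → Q → Prop) : SimpleGraph ({x : V // x ∉ B} ⊕ A) where
  Adj u v := match u, v with
    | .inl x, .inl y => G.Adj x.1 y.1
    | .inr a, .inr b => D.Adj a b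
    | .inl x, .inr a => l (c₁ x.1) (c' a)
    | .inr a, .inl x => l (c₁ x.1) (c' a)
  symm := ⟨by
    rintro (x | a) (y | b) h
    · exact (show G.Adj y.1 x.1 from (show G.Adj x.1 y.1 from h).symm)
    · exact h
    · exact h
    · exact (show D.Adj b a from (show D.Adj a b from h).symm)⟩
  loopless := ⟨by
    rintro (x | a) h
    · exact G.loopless.irrefl _ h
    · exact D.loopless.irrefl _ h⟩

/-- the type of a graph which consists of two parts -/
theorem tyg_union {V Q : Type} [Finite V] (χ : MS) (G : SimpleGraph V) (X Y : Set V)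
    (c c₁ c₂ : V → Q) (l : Q → Q → Prop) (hd : Disjoint X Y)
    (hR : ∀ a ∈ X, ∀ b ∈ Y, (G.Adj a b ↔ l (c₁ a) (c₂ b))) (hX : ∀ a ∈ X, c a = c₁ a)
    (hY : ∀ b ∈ Y, c b = c₂ b) :
    tyg χ G (X ∪ Y) c = χ.comp (fun i p q => i = 0 ∧ l p q) (fun i p q => i = 0 ∧ l p q) id id
      (tyg χ G X c₁) (tyg χ G Y c₂) := by
  obtain ⟨m, hm⟩ := exists_below χ
  refine ty_union (m := m) hd X.toFinite Y.toFinite ?_ hX hY χ (hm m le_rfl) _ _
  intro a ha b hb i _
  refine ⟨and_congr_right fun _ => hR a ha b hb, and_congr_right fun _ => ?_⟩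
  rw [G.adj_comm]
  exact hR a ha b hb

/-- replacement -/
theorem replace {C : GClass} {χ : MS} {Q : Type} (hχ : ∀ (V : Type) [Finite V] [Nonempty V]
    (G : SimpleGraph V) (c : V → Q), (InC C G ↔ χ.dec (tyg χ G Set.univ c)))
    {V A : Type} [Finite V] [Nonempty V] [Finite A] [Nonempty A] (G : SimpleGraph V) (B : Set V)
    (c₁ c₂ : V → Q) (D : SimpleGraph A) (c' : A → Q) (l : Q → Q → Prop)
    (hl : ∀ x, x ∉ B → ∀ b ∈ B, (G.Adj x b ↔ l (c₁ x) (c₂ b)))
    (ht : tyg χ D Set.univ c' = tyg χ G B c₂) (hG : InC C G) :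
    InC C (glue G B c₁ D c' l) := by
  have h1 := (hχ V G (fun v => if v ∈ B then c₂ v else c₁ v)).1 hG
  refine (hχ _ (glue G B c₁ D c' l) (Sum.elim (fun x => c₁ x.1) c')).2 ?_
  have h2 : tyg χ G Set.univ (fun v => if v ∈ B then c₂ v else c₁ v) =
      χ.comp (fun i p q => i = 0 ∧ l p q) (fun i p q => i = 0 ∧ l p q) id id
      (tyg χ G Bᶜ c₁) (tyg χ G B c₂) := by
    rw [← Set.compl_union_self B]
    refine tyg_union χ G Bᶜ B _ c₁ c₂ l disjoint_compl_left (fun a ha b hb => hl a ha b hb)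
      (fun a ha => if_neg ha) (fun b hb => if_pos hb)
  have h3 : tyg χ (glue G B c₁ D c' l) Set.univ (Sum.elim (fun x => c₁ x.1) c') =
      χ.comp (fun i p q => i = 0 ∧ l p q) (fun i p q => i = 0 ∧ l p q) id id
      (tyg χ (glue G B c₁ D c' l) (Set.range Sum.inl) (Sum.elim (fun x => c₁ x.1) c'))
      (tyg χ (glue G B c₁ D c' l) (Set.range Sum.inr) (Sum.elim (fun x => c₁ x.1) c')) := by
    rw [← Set.range_inl_union_range_inr]
    refine tyg_union χ _ _ _ _ _ _ l ?_ ?_ (fun _ _ => rfl) (fun _ _ => rfl)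
    · rw [Set.disjoint_left]
      rintro _ ⟨x, rfl⟩ ⟨a, h⟩
      exact Sum.inr_ne_inl h
    · rintro _ ⟨x, rfl⟩ _ ⟨a, rfl⟩
      exact Iff.rfl
  have h4 : tyg χ (glue G B c₁ D c' l) (Set.range Sum.inl) (Sum.elim (fun x => c₁ x.1) c') =
      tyg χ G Bᶜ c₁ := by
    have h5 : tyg χ (glue G B c₁ D c' l) (Set.range Sum.inl) (Sum.elim (fun x => c₁ x.1) c') =
        tyg χ (G.comap (Subtype.val : {x : V // x ∉ B} → V)) Set.univ (fun x => c₁ x.1) := by
      rw [← Set.image_univ]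
      exact (tyg_iso χ Sum.inl_injective.injOn (fun a _ b _ => Iff.rfl) (fun a _ => rfl)).symm
    have h6 : tyg χ (G.comap (Subtype.val : {x : V // x ∉ B} → V)) Set.univ (fun x => c₁ x.1) =
        tyg χ G ((Subtype.val : {x : V // x ∉ B} → V) '' Set.univ) c₁ :=
      tyg_iso χ Subtype.val_injective.injOn (fun a _ b _ => Iff.rfl) (fun a _ => rfl)
    have h8 : Set.range (Subtype.val : {x : V // x ∉ B} → V) = Bᶜ := by
      ext v
      simp
    rw [h5, h6, Set.image_univ, h8]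
  have h7 : tyg χ (glue G B c₁ D c' l) (Set.range Sum.inr) (Sum.elim (fun x => c₁ x.1) c') =
      tyg χ D Set.univ c' := by
    rw [← Set.image_univ]
    exact (tyg_iso χ Sum.inr_injective.injOn (fun a _ b _ => Iff.rfl) (fun a _ => rfl)).symm
  rw [h3, h4, h7, ht, ← h2]
  exact h1

end Pool.Agent.H51.BN
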