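import Pool.Agent.H79.BN.Targets3
import Pool.Agent.H93.BL.Basic

/-!
# Non-separation: the half plane condition implies the vertex criterion
-/

open MeasureTheory Set Filter Topology Pool.Agent.H93.BL Pool.Agent.H79.BN

namespace Pool.Agent.H51.BN.S2

lemma ip_rf (e d u : ℂ) :
    ip (rf e d) u = ‖e‖ ^ 2 * ip d u - 2 * (cr e d * cr e u) := by
  rw [← ip_self e]
  unfold rf ip cr
  simp only [pow_two, Complex.mul_re, Complex.mul_im, Complex.conj_re, Complex.conj_im]
  ring

lemma zero_of_par (a b d : ℂ) (hab : 0 < cr a b) (h1 : cr a d = 0) (h2 : cr b d = 0) : d = 0 := by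
  have hre : cr a b * d.re = 0 := by
    have : cr a b * d.re = cr a d * b.re - cr b d * a.re := by unfold cr; ring
    rw [this, h1, h2]; ring
  have him : cr a b * d.im = 0 := by
    have : cr a b * d.im = cr a d * b.im - cr b d * a.im := by unfold cr; ring
    rw [this, h1, h2]; ring
  apply Complex.ext
  · simpa using (mul_eq_zero.mp hre).resolve_left hab.ne'
  · simpa using (mul_eq_zero.mp him).resolve_left hab.ne'

lemma ip_zero_of (e d u : ℂ) (hd : d ≠ 0) (h1 : ip d u = 0) (h2 : cr e d = 0) : ip e u = 0 := by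
  have hn : ip d d ≠ 0 := by
    rw [ip_self]; exact pow_ne_zero 2 (norm_ne_zero_iff.mpr hd)
  have : ip e u * ip d d = ip e d * ip d u + cr e d * cr u d := by unfold ip cr; ring
  rw [h1, h2] at this
  have h0 : ip e u * ip d d = 0 := by rw [this]; ring
  exact (mul_eq_zero.mp h0).resolve_right hn

set_option linter.unusedVariables false in
theorem s2 (h1 : T_V1) (hf0 : T_F0) (hs0 : T_S0) (hs1 : T_S1) : T_S2 := by
  intro n _ w E u hn hw hu hE i hi hi1 hx hy d hd hd1 hd2
  obtain ⟨hne, -, hpos, -, -⟩ := h1 n w hn hw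
  have hAb : ∀ y v, 0 < ip v u → Ab w E y v := hs1 n w E u hn hw hE
  have hc := hpos i
  have hu1 : 0 ≤ cr (ed w i) u := hE i hi
  have hu2 : 0 ≤ cr (ed w (i + 1)) u := hE (i + 1) hi1
  have hn1 : 0 < ‖ed w i‖ ^ 2 := pow_pos (norm_pos_iff.mpr (hne i)) 2
  have hn2 : 0 < ‖ed w (i + 1)‖ ^ 2 := pow_pos (norm_pos_iff.mpr (hne (i + 1))) 2
  rcases lt_trichotomy (ip d u) 0 with h | h | h
  · left
    apply hAb
    rw [ip_neg_left]; linarith
  · by_cases a1 : cr (ed w i) d = 0 ∨ cr (ed w i) u = 0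
    · by_cases a2 : cr (ed w (i + 1)) d = 0 ∨ cr (ed w (i + 1)) u = 0
      · exfalso
        rcases a1 with a1 | a1 <;> rcases a2 with a2 | a2
        · exact hd (zero_of_par _ _ d hc a1 a2)
        · exact hy ⟨ip_zero_of _ d u hd h a1, a2⟩
        · exact hx ⟨a1, ip_zero_of _ d u hd h a2⟩
        · exact hu (zero_of_par _ _ u hc a1 a2)
      · push Not at a2
        right; right
        have b1 : cr (ed w (i + 1)) d < 0 := lt_of_le_of_ne hd2 a2.1
        have b2 : 0 < cr (ed w (i + 1)) u := lt_of_le_of_ne hu2 (Ne.symm a2.2)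
        refine ⟨b1, hAb _ _ ?_⟩
        rw [ip_rf, h]
        nlinarith
    · push Not at a1
      right; left
      have b1 : cr (ed w i) d < 0 := lt_of_le_of_ne hd1 a1.1
      have b2 : 0 < cr (ed w i) u := lt_of_le_of_ne hu1 (Ne.symm a1.2)
      refine ⟨b1, hAb _ _ ?_⟩
      rw [ip_rf, h]
      nlinarith
  · by_cases a1 : cr (ed w i) d = 0
    · have a2 : cr (ed w (i + 1)) d ≠ 0 := fun a2 => hd (zero_of_par _ _ d hc a1 a2)
      right; right
      have b1 : cr (ed w (i + 1)) d < 0 := lt_of_le_of_ne hd2 a2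
      refine ⟨b1, hAb _ _ ?_⟩
      rw [ip_rf]
      have := mul_pos hn2 h
      nlinarith [mul_nonneg (neg_nonneg.mpr hd2) hu2]
    · right; left
      have b1 : cr (ed w i) d < 0 := lt_of_le_of_ne hd1 a1
      refine ⟨b1, hAb _ _ ?_⟩
      rw [ip_rf]
      have := mul_pos hn1 h
      nlinarith [mul_nonneg (neg_nonneg.mpr hd1) hu1]

end Pool.Agent.H51.BN.S2
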