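import Pool.Agent.H51.BN.REP

/-!
# Marked models of grids: one cell is replaced
-/

set_option autoImplicit false

namespace Pool.Agent.H51.BN

open Pool.Agent.H8.VR Pool.Agent.H69.VR Pool.Agent.H8.MC Classical

theorem conn_image {V V' : Type} {G : SimpleGraph V} {G' : SimpleGraph V'} {X : Set V}
    {X' : Set V'} {h : V → V'} (hi : Set.InjOn h X)
    (hR : ∀ a ∈ X, ∀ b ∈ X, (G.Adj a b ↔ G'.Adj (h a) (h b))) (hX : h '' X = X')
    (hc : (G.induce X).Connected) : (G'.induce X').Connected := by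
  subst hX
  have iso : G.induce X ≃g G'.induce (h '' X) :=
    ⟨Equiv.Set.imageOfInjOn h X hi, fun {a b} => (hR a.1 a.2 b.1 b.2).symm⟩
  exact iso.connected_iff.1 hc

/-- the marks of the rest towards the cell `p₀` -/
def mo {V : Type} {r : ℕ} (ce : V → Fin r × Fin r) (mk : V → Set Dr) (p₀ : Fin r × Fin r) (v : V) :
    Set Dr := {d | step d p₀ (ce v) ∧ opp d ∈ mk v}

theorem step_replace {C : GClass} {χ : MS} (hχ : ∀ (V : Type) [Finite V] [Nonempty V]
    (G : SimpleGraph V) (c : V → Set Dr), (InC C G ↔ χ.dec (tyg χ G Set.univ c))) {L : ℕ}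
    (hL : ∀ (A : Type) [Finite A] (D : SimpleGraph A) (c : A → Set Dr), D.Connected → ∃ n, n ≤ L ∧
      ∃ (D' : SimpleGraph (Fin n)) (c' : Fin n → Set Dr), D'.Connected ∧
        Set.range c' = Set.range c ∧ tyg χ D' Set.univ c' = tyg χ D Set.univ c)
    {V : Type} [Finite V] {r : ℕ} {G : SimpleGraph V} {ce : V → Fin r × Fin r} {mk : V → Set Dr}
    (hM : MM r G ce mk) (hG : InC C G) (p₀ : Fin r × Fin r) :
    ∃ (V' : Type) (_ : Finite V') (G' : SimpleGraph V') (ce' : V' → Fin r × Fin r)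
      (mk' : V' → Set Dr), MM r G' ce' mk' ∧ InC C G' ∧ {v | ce' v = p₀}.ncard ≤ L ∧
        ∀ p, p ≠ p₀ → {v | ce' v = p}.ncard = {v | ce v = p}.ncard := by
  set B : Set V := {v | ce v = p₀} with hB
  obtain ⟨⟨b₀, hb₀⟩⟩ := (hM.conn p₀).nonempty
  have : Nonempty V := ⟨b₀⟩
  obtain ⟨n, hn, D, c', hD, hr, ht⟩ := hL {v // v ∈ B} (G.induce B) (fun v => mk v.1) (hM.conn p₀)
  obtain ⟨a₀⟩ := hD.nonempty
  have : Nonempty (Fin n) := ⟨a₀⟩
  set l : Set Dr → Set Dr → Prop := fun M M' => ∃ d, d ∈ M ∧ d ∈ M' with hl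
  have hcross : ∀ x, x ∉ B → ∀ b ∈ B, (G.Adj x b ↔ l (mo ce mk p₀ x) (mk b)) := by
    intro x hx b hb
    have hne : ce x ≠ ce b := by
      rw [show ce b = p₀ from hb]
      exact hx
    rw [hM.adj x b hne, show ce b = p₀ from hb]
    constructor
    · rintro ⟨d, h1, h2, h3⟩
      exact ⟨opp d, ⟨step_opp.2 h1, by rwa [opp_opp]⟩, h3⟩
    · rintro ⟨d, ⟨h1, h2⟩, h3⟩
      exact ⟨opp d, step_opp.2 h1, h2, by rwa [opp_opp]⟩
  have ht' : tyg χ D Set.univ c' = tyg χ G B mk := by
    rw [ht]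
    have h1 : tyg χ (G.induce B) Set.univ (fun v : B => mk v.1) =
        tyg χ G ((Subtype.val : B → V) '' Set.univ) mk :=
      tyg_iso χ Subtype.val_injective.injOn (fun a _ b _ => Iff.rfl) (fun a _ => rfl)
    refine h1.trans ?_
    rw [Set.image_univ, Subtype.range_coe]
  set G' := glue G B (mo ce mk p₀) D c' l with hG'
  set ce' : {x : V // x ∉ B} ⊕ Fin n → Fin r × Fin r := Sum.elim (fun x => ce x.1) (fun _ => p₀)
    with hce'
  set mk' : {x : V // x ∉ B} ⊕ Fin n → Set Dr := Sum.elim (fun x => mk x.1) c' with hmk'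
  -- the cells of the new model
  have hp0 : {v | ce' v = p₀} = Set.range Sum.inr := by
    ext v
    rcases v with x | a
    · simp only [Set.mem_ofPred_eq, Set.mem_range, reduceCtorEq, exists_false, iff_false]
      exact x.2
    · simp [hce']
  have hpp : ∀ p, p ≠ p₀ → {v | ce' v = p} =
      (fun v => if h : v ∉ B then Sum.inl ⟨v, h⟩ else Sum.inr a₀) '' {v | ce v = p} := by
    intro p hp
    ext v
    rcases v with x | a
    · simp only [Set.mem_ofPred_eq, Set.mem_image]
      constructor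
      · intro h
        exact ⟨x.1, h, dif_pos x.2⟩
      · rintro ⟨v, hv, h⟩
        have hvB : v ∉ B := fun h' => hp (hv.symm.trans h')
        rw [dif_pos hvB] at h
        rw [← Sum.inl_injective h]
        exact hv
    · simp only [Set.mem_ofPred_eq, Set.mem_image]
      constructor
      · intro h
        exact absurd h.symm hp
      · rintro ⟨v, hv, h⟩
        have hvB : v ∉ B := fun h' => hp (hv.symm.trans h')
        rw [dif_pos hvB] at h
        exact absurd h (by simp)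
  have hinj : ∀ p, p ≠ p₀ → Set.InjOn
      (fun v => if h : v ∉ B then (Sum.inl ⟨v, h⟩ : {x : V // x ∉ B} ⊕ Fin n) else Sum.inr a₀)
      {v | ce v = p} := by
    intro p hp u hu v hv h
    have huB : u ∉ B := fun h' => hp (hu.symm.trans h')
    have hvB : v ∉ B := fun h' => hp (hv.symm.trans h')
    simp only [dif_pos huB, dif_pos hvB] at h
    exact congrArg Subtype.val (Sum.inl_injective h)
  refine ⟨{x : V // x ∉ B} ⊕ Fin n, inferInstance, G', ce', mk', ⟨?_, ?_, ?_⟩,
    replace hχ G B _ mk D c' l hcross ht' hG, ?_, ?_⟩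
  · intro p
    by_cases hp : p = p₀
    · subst hp
      have h1 : (D.induce Set.univ).Connected := by
        exact (SimpleGraph.induceUnivIso D).connected_iff.2 hD
      refine conn_image (h := Sum.inr) Sum.inr_injective.injOn (fun a _ b _ => Iff.rfl) ?_ h1
      rw [Set.image_univ, hp0]
    · refine conn_image (hinj p hp) ?_ (hpp p hp).symm (hM.conn p)
      intro u hu v hv
      have huB : u ∉ B := fun h' => hp (hu.symm.trans h')
      have hvB : v ∉ B := fun h' => hp (hv.symm.trans h')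
      simp only [dif_pos huB, dif_pos hvB]
      exact Iff.rfl
  · rintro (x | a) (y | b) hne
    · exact hM.adj x.1 y.1 hne
    · show l (mo ce mk p₀ x.1) (c' b) ↔ ∃ d, step d (ce x.1) p₀ ∧ d ∈ mk x.1 ∧ opp d ∈ c' b
      constructor
      · rintro ⟨d, ⟨h1, h2⟩, h3⟩
        exact ⟨opp d, step_opp.2 h1, h2, by rwa [opp_opp]⟩
      · rintro ⟨d, h1, h2, h3⟩
        exact ⟨opp d, ⟨step_opp.2 h1, by rwa [opp_opp]⟩, h3⟩
    · show l (mo ce mk p₀ y.1) (c' a) ↔ ∃ d, step d p₀ (ce y.1) ∧ d ∈ c' a ∧ opp d ∈ mk y.1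
      constructor
      · rintro ⟨d, ⟨h1, h2⟩, h3⟩
        exact ⟨d, h1, h3, h2⟩
      · rintro ⟨d, h1, h2, h3⟩
        exact ⟨d, ⟨h1, h3⟩, h2⟩
    · exact absurd rfl hne
  · intro p q d h
    obtain ⟨u, h1, h2⟩ := hM.one p q d h
    by_cases hu : u ∈ B
    · have h3 : mk u ∈ Set.range c' := by
        rw [hr]
        exact ⟨⟨u, hu⟩, rfl⟩
      obtain ⟨a, ha⟩ := h3
      refine ⟨Sum.inr a, ?_, ?_⟩
      · rw [← h1]
        exact (show ce u = p₀ from hu).symm
      · show d ∈ c' a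
        rwa [ha]
    · exact ⟨Sum.inl ⟨u, hu⟩, h1, h2⟩
  · rw [hp0, ← Set.image_univ, Set.ncard_image_of_injective _ Sum.inr_injective, Set.ncard_univ,
      Nat.card_eq_fintype_card, Fintype.card_fin]
    exact hn
  · intro p hp
    rw [hpp p hp, (hinj p hp).ncard_image]

end Pool.Agent.H51.BN
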